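import Pool.Agent.X144.AltEps

set_option autoImplicit false

/-!
# The posterior upper probability of the epsilon-contamination model

Full answer to Q2 of MP_bae362_pr: `N_2 = ∞`. The definitions `IsAlternating`, `supL` and `vEps` are
in `Pool/Agent/X144/AltDefs.lean`.
-/

namespace Pool.Agent.Results.MP_bae362_pr.ContaminationAlternating

open MeasureTheory Pool.Agent.X144.Alt
open scoped ENNReal NNReal

/-- For every `0 < ε < 1`, every prior `P` on a measurable space `E` and every measurable likelihood
`L ≥ 0` with `∫ L dP < ∞`, the posterior upper probability of the `ε`-contamination model is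
`n`-alternating for every `n`, i.e. completely alternating. -/
theorem result {E : Type*} [MeasurableSpace E] (ε : ℝ) (hε0 : 0 < ε) (hε1 : ε < 1)
    (P : Measure E) [IsProbabilityMeasure P] (L : E → ℝ≥0) (_hL : Measurable L)
    (hfin : ∫⁻ x, L x ∂P ≠ ∞) :
    ∀ n : ℕ, 1 ≤ n → IsAlternating n (vEps ε P L) :=
  fun n hn => eps_alternating ε hε0 hε1 P L hfin n hn

end Pool.Agent.Results.MP_bae362_pr.ContaminationAlternating
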