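import Pool.Agent.X144.AltRS

set_option autoImplicit false

/-!
# The posterior upper probability of the selections of a random closed set

Full answer to Q1 of MP_bae362_pr: `N_1 = ∞`. The definitions `IsAlternating`, `sRS`, `tRS`, `vRS`
and `IsRandomClosedSet` are in `Pool/Agent/X144/AltDefs.lean`.
-/

namespace Pool.Agent.Results.MP_bae362_pr.SelectionsCompletelyAlternating

open MeasureTheory Pool.Agent.X144.Alt
open scoped ENNReal NNReal

/-- For every locally compact second countable Hausdorff space `E`, every random closed set `X` in
`E` (on any probability space), and every Borel likelihood `L ≥ 0` with `E[inf_X L] < ∞` (otherwise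
no prior in the family has a finite normalising constant), the posterior upper probability
`v_y = s / (s + t)` is `n`-alternating for every `n`, i.e. completely alternating. -/
theorem result {E : Type*} [TopologicalSpace E] [LocallyCompactSpace E]
    [SecondCountableTopology E] [T2Space E] [MeasurableSpace E] [BorelSpace E]
    {Ω : Type*} [MeasurableSpace Ω] (P : Measure Ω) [IsProbabilityMeasure P]
    (X : Ω → Set E) (hX : IsRandomClosedSet X) (L : E → ℝ≥0) (hL : Measurable L)
    (hfin : ∫⁻ ω, ⨅ x ∈ X ω, (L x : ℝ≥0∞) ∂P ≠ ∞) :
    ∀ n : ℕ, 1 ≤ n → IsAlternating n (vRS P X L) :=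
  fun n hn => rs_alternating hX P hL hfin n hn

end Pool.Agent.Results.MP_bae362_pr.SelectionsCompletelyAlternating
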